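import Pool.Agent.LE.StmtsG

/-!
# Row CAU: `D(a, a + ℓ y) / ℓ` is a Cauchy sequence in L², in the limit of large cubes
-/

set_option autoImplicit false

open MeasureTheory ProbabilityTheory Function Filter

open scoped ENNReal BigOperators Topology

noncomputable section

namespace Pool.Agent.LE.H15

open Pool.Agent.Anderson Pool.Agent.Loc Pool.Agent.Mob Pool.Agent.Helper54.Bal Pool.Agent.LE

variable {d : ℕ}

theorem sd_self_add (x y : Site d) : sd x (x + y) = sd 0 y := by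
  unfold sd
  congr 1
  funext i
  congr 1
  simp

theorem sd_sm_le {y : Site d} {K : ℕ} (ℓ : ℕ) (hy : sd 0 y ≤ K) : sd 0 (sm ℓ y) ≤ ℓ * K := by
  rw [sd_le_iff] at hy ⊢
  intro i
  have h := hy i
  simp only [Pi.zero_apply, zero_sub, abs_neg] at h ⊢
  unfold sm
  rw [abs_mul, Nat.abs_cast]
  push_cast
  exact mul_le_mul_of_nonneg_left h (Nat.cast_nonneg _)

theorem adm_XX {Ω : Type} [MeasurableSpace Ω] {P : Measure Ω} {C : ℝ} {N R K ℓ : ℕ}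
    {D : Ω → Site d → Site d → ℝ} (hD : FamN d N P C D) {y : Site d} (hy : sd 0 y ≤ K)
    (h : R + ℓ * K ≤ N) : Adm P R (XX D y ℓ) := by
  intro a ha
  rw [mem_box] at ha
  have h1 : a ∈ box (0 : Site d) N := by
    rw [mem_box]
    omega
  have h2 : a + sm ℓ y ∈ box (0 : Site d) N := by
    rw [mem_box]
    have := sd_triangle 0 a (a + sm ℓ y)
    rw [sd_self_add] at this
    have := sd_sm_le ℓ hy
    omega
  refine ⟨(hD.meas _ _).div_const _, ?_⟩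
  have h3 : (fun ω => XX D y ℓ a ω ^ 2) = fun ω => D ω a (a + sm ℓ y) ^ 2 / (ℓ : ℝ) ^ 2 := by
    funext ω
    unfold XX
    rw [div_pow]
  rw [h3]
  exact (hD.int _ h1 _ h2).div_const _

theorem nA_nonneg {Ω : Type} [MeasurableSpace Ω] (P : Measure Ω) (R : ℕ)
    (f : Site d → Ω → ℝ) : 0 ≤ nA P R f := Real.sqrt_nonneg _

theorem exists_lim (u : ℕ → ℝ) (M : ℝ)
    (h : ∀ᶠ N in (hyperfilter ℕ : Filter ℕ), 0 ≤ u N ∧ u N ≤ M) :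
    ∃ x : ℝ, 0 ≤ x ∧ x ≤ M ∧ Tendsto u (hyperfilter ℕ : Filter ℕ) (𝓝 x) := by
  have hc : IsCompact (Set.Icc (0 : ℝ) M) := isCompact_Icc
  obtain ⟨x, hx, hle⟩ := hc.ultrafilter_le_nhds ((hyperfilter ℕ).map u) (by
    rw [Filter.le_principal_iff]
    exact h)
  exact ⟨x, hx.1, hx.2, hle⟩

theorem ev_of_atTop {p : ℕ → Prop} (h : ∀ᶠ N in atTop, p N) :
    ∀ᶠ N in (hyperfilter ℕ : Filter ℕ), p N := by
  exact Nat.hyperfilter_le_atTop h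

theorem ev_large (R₀ A : ℕ) : ∀ᶠ N : ℕ in (hyperfilter ℕ : Filter ℕ),
    R₀ ≤ N / 2 ∧ N / 2 + A ≤ N := by
  apply ev_of_atTop
  filter_upwards [eventually_ge_atTop (2 * R₀ + 2 * A + 2)] with N hN
  omega

/-- numbers -/
theorem num {β M e ε a b h s : ℝ} (he : 0 < e) (he1 : 196 * e ^ 2 ≤ ε ^ 2)
    (he2 : 56 * e * M ≤ ε ^ 2) (hM : β ≤ M) (ha0 : 0 ≤ a) (hb0 : 0 ≤ b) (hh0 : 0 ≤ h)
    (ha : a ≤ β + 2 * e) (hb : b ≤ β + 2 * e) (hh : β - 5 * e ≤ h)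
    (hs : s ^ 2 = 2 * a ^ 2 + 2 * b ^ 2 - 4 * h ^ 2) (hs0 : 0 ≤ s) (hε : 0 ≤ ε) : s ≤ ε := by
  have h1 : a ^ 2 ≤ (β + 2 * e) ^ 2 := pow_le_pow_left₀ ha0 ha 2
  have h2 : b ^ 2 ≤ (β + 2 * e) ^ 2 := pow_le_pow_left₀ hb0 hb 2
  apply abs_le_of_sq_le_sq' _ hε |>.2
  rw [hs]
  by_cases hc : 0 ≤ β - 5 * e
  · have h3 : (β - 5 * e) ^ 2 ≤ h ^ 2 := pow_le_pow_left₀ hc hh 2
    have h4 : e * β ≤ e * M := mul_le_mul_of_nonneg_left hM he.le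
    nlinarith [sq_nonneg e]
  · push_neg at hc
    have h3 : 0 ≤ β + 2 * e := ha0.trans ha
    have h4 : (β + 2 * e) ^ 2 ≤ (7 * e) ^ 2 := pow_le_pow_left₀ h3 (by linarith) 2
    nlinarith [sq_nonneg h]

theorem cau_one (hS : SubXStmt) (hKey : KeyXStmt) (hN : NrmStmt) (d K : ℕ) (C : ℝ) (hC : 0 < C)
    (hK : 1 ≤ K) (Ω : Type) [MeasurableSpace Ω] (P : Measure Ω) [IsProbabilityMeasure P]
    (D : ℕ → Ω → Site d → Site d → ℝ) (hD : ∀ N, FamN d N P C (D N)) (y : Site d)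
    (hy : sd 0 y ≤ K) (ε : ℝ) (hε : 0 < ε) :
    ∀ᶠ l in atTop, ∀ ℓ ℓ' : ℕ, l ≤ ℓ → l ≤ ℓ' →
      ∀ᶠ N in (hyperfilter ℕ : Filter ℕ),
        nA P (N / 2) (fun a ω => XX (D N) y ℓ a ω - XX (D N) y ℓ' a ω) ≤ ε := by
  obtain ⟨M₁, hM₁, hS⟩ := hS d K C hC hK
  obtain ⟨M₂, hM₂, hKey⟩ := hKey d K C hC hK
  -- the limits
  have hlim : ∀ ℓ : ℕ, 1 ≤ ℓ → ∃ x : ℝ, 0 ≤ x ∧ x ≤ M₁ ∧
      Tendsto (fun N => nA P (N / 2) (XX (D N) y ℓ)) (hyperfilter ℕ : Filter ℕ) (𝓝 x) := by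
    intro ℓ hℓ
    obtain ⟨R₀, hR⟩ := hS ℓ 1 hℓ le_rfl
    apply exists_lim
    filter_upwards [ev_large R₀ (4 * K * (ℓ + 1))] with N hN'
    exact ⟨nA_nonneg _ _ _, (hR (N / 2) N hN'.1 hN'.2 Ω P (D N) (hD N) y hy).1⟩
  choose! x hx0 hxM hx using hlim
  have hsub : ∀ ℓ ℓ' : ℕ, 1 ≤ ℓ → 1 ≤ ℓ' →
      ((ℓ : ℝ) + ℓ') * x (ℓ + ℓ') ≤ ℓ * x ℓ + ℓ' * x ℓ' + M₁ := by
    intro ℓ ℓ' hℓ hℓ'
    obtain ⟨R₀, hR⟩ := hS ℓ ℓ' hℓ hℓ'
    refine le_of_tendsto_of_tendsto ((hx (ℓ + ℓ') (by omega)).const_mul _)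
      ((((hx ℓ hℓ).const_mul _).add ((hx ℓ' hℓ').const_mul _)).add_const _) ?_
    filter_upwards [ev_large R₀ (4 * K * (ℓ + ℓ'))] with N hN'
    exact (hR (N / 2) N hN'.1 hN'.2 Ω P (D N) (hD N) y hy).2
  -- Fekete
  have hu : Subadditive fun n : ℕ => n * x n + M₁ := by
    intro m n
    rcases Nat.eq_zero_or_pos m with rfl | hm
    · simp only [Nat.cast_zero, zero_mul, zero_add]
      linarith
    rcases Nat.eq_zero_or_pos n with rfl | hn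
    · simp only [Nat.cast_zero, zero_mul, zero_add, add_zero]
      linarith
    have := hsub m n hm hn
    push_cast
    linarith
  have hbd : BddBelow (Set.range fun n : ℕ => (n * x n + M₁) / (n : ℝ)) := by
    refine ⟨0, ?_⟩
    rintro _ ⟨n, rfl⟩
    rcases Nat.eq_zero_or_pos n with rfl | hn
    · simp
    · have := hx0 n hn
      positivity
  obtain ⟨β, hβ⟩ : ∃ β : ℝ, Tendsto (fun n : ℕ => (n * x n + M₁) / (n : ℝ)) atTop (𝓝 β) :=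
    ⟨_, hu.tendsto_lim hbd⟩
  have hxβ : Tendsto x atTop (𝓝 β) := by
    have h1 : Tendsto (fun n : ℕ => (n * x n + M₁) / (n : ℝ) - M₁ / n) atTop (𝓝 (β - 0)) :=
      hβ.sub (tendsto_const_div_atTop_nhds_zero_nat M₁)
    rw [sub_zero] at h1
    refine h1.congr' ?_
    filter_upwards [eventually_ge_atTop 1] with n hn
    have : (n : ℝ) ≠ 0 := by
      have : 0 < n := hn
      positivity
    field_simp
    ring
  have hβM : β ≤ M₁ := by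
    refine le_of_tendsto hxβ ?_
    filter_upwards [eventually_ge_atTop 1] with n hn
    exact hxM n hn
  -- the small number
  obtain ⟨e, he0, he1, he2⟩ : ∃ e : ℝ, 0 < e ∧ 196 * e ^ 2 ≤ ε ^ 2 ∧ 56 * e * M₁ ≤ ε ^ 2 := by
    refine ⟨min (ε / 14) (ε ^ 2 / (56 * M₁)), by positivity, ?_, ?_⟩
    · have h1 : min (ε / 14) (ε ^ 2 / (56 * M₁)) ≤ ε / 14 := min_le_left _ _
      have h2 : 0 ≤ min (ε / 14) (ε ^ 2 / (56 * M₁)) := by positivity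
      have h3 := pow_le_pow_left₀ h2 h1 2
      calc _ ≤ 196 * (ε / 14) ^ 2 := by linarith
        _ = ε ^ 2 := by ring
    · have h1 : min (ε / 14) (ε ^ 2 / (56 * M₁)) ≤ ε ^ 2 / (56 * M₁) := min_le_right _ _
      calc 56 * min (ε / 14) (ε ^ 2 / (56 * M₁)) * M₁ ≤ 56 * (ε ^ 2 / (56 * M₁)) * M₁ := by
            gcongr
        _ = ε ^ 2 := by field_simp
  have hev : ∀ᶠ l : ℕ in atTop, |x l - β| < e :=
    (Metric.tendsto_nhds.1 hxβ e he0).mono fun l hl => by rwa [Real.dist_eq] at hl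
  obtain ⟨l₀, hl₀⟩ := eventually_atTop.1 hev
  have hM2 : ∀ᶠ l : ℕ in atTop, M₂ / (l : ℝ) < e :=
    (tendsto_const_div_atTop_nhds_zero_nat M₂).eventually (gt_mem_nhds he0)
  obtain ⟨l₁, hl₁⟩ := eventually_atTop.1 hM2
  filter_upwards [eventually_ge_atTop l₀, eventually_ge_atTop l₁, eventually_ge_atTop 1]
    with l hl hl' hl1 ℓ ℓ' hℓ hℓ'
  have hℓ1 : 1 ≤ ℓ := hl1.trans hℓ
  have hℓ1' : 1 ≤ ℓ' := hl1.trans hℓ'
  have hLL : l ≤ ℓ * ℓ' := hℓ.trans (Nat.le_mul_of_pos_right _ hℓ1')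
  have hLL1 : 1 ≤ ℓ * ℓ' := hl1.trans hLL
  have c1 := abs_lt.1 (hl₀ ℓ (hl.trans hℓ))
  have c2 := abs_lt.1 (hl₀ ℓ' (hl.trans hℓ'))
  have c3 := abs_lt.1 (hl₀ (ℓ * ℓ') (hl.trans hLL))
  have c4 := hl₁ ℓ (hl'.trans hℓ)
  have c5 := hl₁ ℓ' (hl'.trans hℓ')
  obtain ⟨R₀, hR⟩ := hKey ℓ ℓ' e hℓ1 hℓ1' he0
  have t1 : ∀ᶠ N in (hyperfilter ℕ : Filter ℕ), nA P (N / 2) (XX (D N) y ℓ) < β + 2 * e :=
    (hx ℓ hℓ1).eventually (gt_mem_nhds (by linarith))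
  have t2 : ∀ᶠ N in (hyperfilter ℕ : Filter ℕ), nA P (N / 2) (XX (D N) y ℓ') < β + 2 * e :=
    (hx ℓ' hℓ1').eventually (gt_mem_nhds (by linarith))
  have t3 : ∀ᶠ N in (hyperfilter ℕ : Filter ℕ),
      β - 2 * e < nA P (N / 2) (XX (D N) y (ℓ * ℓ')) :=
    (hx (ℓ * ℓ') hLL1).eventually (lt_mem_nhds (by linarith))
  filter_upwards [t1, t2, t3, ev_large R₀ (4 * K * (ℓ * ℓ')), ev_large 0 (ℓ * K),
    ev_large 0 (ℓ' * K)] with N n1 n2 n3 n4 n5 n6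
  have k1 := hR (N / 2) N n4.1 n4.2 Ω P (D N) (hD N) y hy
  have a1 : Adm P (N / 2) (XX (D N) y ℓ) := adm_XX (hD N) hy n5.2
  have a2 : Adm P (N / 2) (XX (D N) y ℓ') := adm_XX (hD N) hy n6.2
  have p1 := ((hN d Ω P (N / 2)).1 _ _ a1 a2).2.2
  refine num he0 he1 he2 hβM (nA_nonneg _ _ _) (nA_nonneg _ _ _) (nA_nonneg _ _ _) n1.le n2.le ?_
    p1 (nA_nonneg _ _ _) hε.le
  have k2 : M₂ * (1 / (ℓ : ℝ) + 1 / ℓ') ≤ 2 * e := by
    have : M₂ * (1 / (ℓ : ℝ) + 1 / ℓ') = M₂ / ℓ + M₂ / ℓ' := by ring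
    rw [this]
    linarith
  linarith

theorem cau (hS : SubXStmt) (hKey : KeyXStmt) (hN : NrmStmt) : CauStmt := by
  intro d K C hC hK Ω _ P _ D hD ε hε
  have h : ∀ᶠ l in atTop, ∀ y ∈ box (0 : Site d) K, ∀ ℓ ℓ' : ℕ, l ≤ ℓ → l ≤ ℓ' →
      ∀ᶠ N in (hyperfilter ℕ : Filter ℕ),
        nA P (N / 2) (fun a ω => XX (D N) y ℓ a ω - XX (D N) y ℓ' a ω) ≤ ε := by
    rw [Filter.eventually_all_finset]
    intro y hy
    exact cau_one hS hKey hN d K C hC hK Ω P D hD y (mem_box.1 hy) ε hε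
  obtain ⟨l, hl, hl1⟩ := (h.and (eventually_ge_atTop 1)).exists
  refine ⟨l, hl1, fun ℓ ℓ' hℓ hℓ' => ?_⟩
  have h2 : ∀ᶠ N in (hyperfilter ℕ : Filter ℕ), ∀ y ∈ box (0 : Site d) K,
      nA P (N / 2) (fun a ω => XX (D N) y ℓ a ω - XX (D N) y ℓ' a ω) ≤ ε := by
    rw [Filter.eventually_all_finset]
    exact fun y hy => hl y hy ℓ ℓ' hℓ hℓ'
  filter_upwards [h2] with N hN' y hy
  exact hN' y (mem_box.2 hy)

end Pool.Agent.LE.H15
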