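import Pool.Agent.LE.Stmts3

/-!
# Row MSN: the numbers of the multiscale induction
-/

set_option autoImplicit false

open scoped BigOperators

noncomputable section

namespace Pool.Agent.LE.H15

open Pool.Agent.LE

theorem exp_neg_le (N : ℕ) {y : ℝ} (hy : 0 < y) :
    Real.exp (-y) ≤ (N.factorial : ℝ) / y ^ N := by
  have h := Real.pow_div_factorial_le_exp y hy.le N
  have hf : (0 : ℝ) < N.factorial := by exact_mod_cast N.factorial_pos
  have hyN : 0 < y ^ N := pow_pos hy N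
  rw [Real.exp_neg, le_div_iff₀ hyN, inv_mul_le_iff₀ (Real.exp_pos _)]
  rw [div_le_iff₀ hf] at h
  exact h

/-- exponential against polynomial, uniformly in `k` -/
theorem scales (C c : ℝ) (P : ℕ) (hC : 0 ≤ C) (hc : 0 < c) : ∃ L₀ : ℕ, ∀ L : ℕ, L₀ ≤ L →
    1 ≤ L → ∀ k : ℕ, C * (105 * (52 ^ k * (L : ℝ))) ^ P * Real.exp (-(4 ^ k * (c * L))) ≤ 1 := by
  obtain ⟨L₀, hL₀⟩ := exists_nat_ge (C * 105 ^ P * ((3 * P + 1).factorial : ℝ) / c ^ (3 * P + 1))
  refine ⟨L₀, fun L hL h1 k => ?_⟩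
  have hL1 : (1 : ℝ) ≤ L := by exact_mod_cast h1
  have hLpos : (0 : ℝ) < L := by linarith
  have hf : (0 : ℝ) < ((3 * P + 1).factorial : ℝ) := by exact_mod_cast Nat.factorial_pos _
  have hy : 0 < 4 ^ k * (c * (L : ℝ)) := by positivity
  have e1 := exp_neg_le (3 * P + 1) hy
  have h3 : C * (105 * (52 ^ k * (L : ℝ))) ^ P * Real.exp (-(4 ^ k * (c * L))) ≤
      C * (105 * (52 ^ k * (L : ℝ))) ^ P *
        (((3 * P + 1).factorial : ℝ) / (4 ^ k * (c * L)) ^ (3 * P + 1)) :=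
    mul_le_mul_of_nonneg_left e1 (by positivity)
  refine h3.trans ?_
  have h4 : ((52 : ℝ) ^ k) ^ P ≤ (4 ^ k) ^ (3 * P + 1) := by
    rw [← pow_mul, ← pow_mul]
    calc (52 : ℝ) ^ (k * P) ≤ 64 ^ (k * P) := pow_le_pow_left₀ (by norm_num) (by norm_num) _
      _ = 4 ^ (3 * (k * P)) := by rw [pow_mul (4 : ℝ) 3]; norm_num
      _ ≤ 4 ^ (k * (3 * P + 1)) := pow_le_pow_right₀ (by norm_num) (by
          have : k * (3 * P + 1) = 3 * (k * P) + k := by ring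
          omega)
  have h5 : (L : ℝ) ^ P * L ≤ L ^ (3 * P + 1) := by
    rw [← pow_succ]
    exact pow_le_pow_right₀ hL1 (by omega)
  have h6 : C * 105 ^ P * ((3 * P + 1).factorial : ℝ) ≤ c ^ (3 * P + 1) * L := by
    have h7 : C * 105 ^ P * ((3 * P + 1).factorial : ℝ) / c ^ (3 * P + 1) ≤ L :=
      hL₀.trans (by exact_mod_cast hL)
    rw [div_le_iff₀ (pow_pos hc _)] at h7
    linarith
  rw [mul_div_assoc', div_le_one (by positivity)]
  calc C * (105 * (52 ^ k * (L : ℝ))) ^ P * ((3 * P + 1).factorial : ℝ)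
      = (C * 105 ^ P * ((3 * P + 1).factorial : ℝ)) * ((52 ^ k) ^ P * (L : ℝ) ^ P) := by
        rw [mul_pow, mul_pow]; ring
    _ ≤ (c ^ (3 * P + 1) * L) * ((4 ^ k) ^ (3 * P + 1) * (L : ℝ) ^ P) :=
        mul_le_mul h6 (mul_le_mul_of_nonneg_right h4 (by positivity)) (by positivity)
          (by positivity)
    _ = c ^ (3 * P + 1) * (4 ^ k) ^ (3 * P + 1) * ((L : ℝ) ^ P * L) := by ring
    _ ≤ c ^ (3 * P + 1) * (4 ^ k) ^ (3 * P + 1) * (L : ℝ) ^ (3 * P + 1) :=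
        mul_le_mul_of_nonneg_left h5 (by positivity)
    _ = (4 ^ k * (c * L)) ^ (3 * P + 1) := by rw [mul_pow, mul_pow]; ring

/-- exponential against polynomial for large `k` -/
theorem large (L c : ℝ) (A : ℕ) (hL : 1 ≤ L) (hc : 0 < c) : ∃ k₀ : ℕ, ∀ k : ℕ, k₀ ≤ k →
    Real.exp (-(2 ^ k * c)) ≤ ((52 ^ k * L) ^ A)⁻¹ := by
  obtain ⟨k₀, hk₀⟩ := exists_nat_ge (L ^ A * ((6 * A + 1).factorial : ℝ) / c ^ (6 * A + 1))
  refine ⟨k₀, fun k hk => ?_⟩
  have hLpos : (0 : ℝ) < L := by linarith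
  have hf : (0 : ℝ) < ((6 * A + 1).factorial : ℝ) := by exact_mod_cast Nat.factorial_pos _
  have hy : 0 < 2 ^ k * c := by positivity
  refine (exp_neg_le (6 * A + 1) hy).trans ?_
  rw [← one_div, div_le_div_iff₀ (by positivity) (by positivity), one_mul]
  have h4 : ((52 : ℝ) ^ k) ^ A * 2 ^ k ≤ (2 ^ k) ^ (6 * A + 1) := by
    have h5 : ((52 : ℝ) ^ k) ^ A ≤ (2 ^ k) ^ (6 * A) := by
      rw [← pow_mul, ← pow_mul]
      calc (52 : ℝ) ^ (k * A) ≤ 64 ^ (k * A) := pow_le_pow_left₀ (by norm_num) (by norm_num) _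
        _ = 2 ^ (k * (6 * A)) := by
            rw [show k * (6 * A) = 6 * (k * A) by ring, pow_mul (2 : ℝ) 6]; norm_num
    calc ((52 : ℝ) ^ k) ^ A * 2 ^ k ≤ (2 ^ k) ^ (6 * A) * 2 ^ k :=
          mul_le_mul_of_nonneg_right h5 (by positivity)
      _ = (2 ^ k) ^ (6 * A + 1) := (pow_succ _ _).symm
  have h6 : L ^ A * ((6 * A + 1).factorial : ℝ) ≤ 2 ^ k * c ^ (6 * A + 1) := by
    have h7 : L ^ A * ((6 * A + 1).factorial : ℝ) / c ^ (6 * A + 1) ≤ k :=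
      hk₀.trans (by exact_mod_cast hk)
    rw [div_le_iff₀ (pow_pos hc _)] at h7
    refine h7.trans (mul_le_mul_of_nonneg_right ?_ (by positivity))
    have : k < 2 ^ k := Nat.lt_two_pow_self
    exact_mod_cast this.le
  calc ((6 * A + 1).factorial : ℝ) * (52 ^ k * L) ^ A
      = (52 ^ k) ^ A * (L ^ A * ((6 * A + 1).factorial : ℝ)) := by rw [mul_pow]; ring
    _ ≤ (52 ^ k) ^ A * (2 ^ k * c ^ (6 * A + 1)) :=
        mul_le_mul_of_nonneg_left h6 (by positivity)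
    _ = ((52 ^ k) ^ A * 2 ^ k) * c ^ (6 * A + 1) := by ring
    _ ≤ (2 ^ k) ^ (6 * A + 1) * c ^ (6 * A + 1) :=
        mul_le_mul_of_nonneg_right h4 (by positivity)
    _ = (2 ^ k * c) ^ (6 * A + 1) := by rw [mul_pow]

theorem msn : MsnStmt := by
  intro d ρ m hρ hm
  obtain ⟨L₁, h1⟩ := scales ((2 * d) ^ 2) (m / 4) (2 * d) (by positivity) (by positivity)
  obtain ⟨L₂, h2⟩ := scales (6 * ρ * (4 * 209 ^ (2 * d))) (m / 8) (3 * d + 1) (by positivity)
    (by positivity)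
  obtain ⟨L₃, h3⟩ := exists_nat_ge (16 / m)
  refine ⟨L₁ + L₂ + L₃ + 1, fun L hL => ?_⟩
  have hL1 : 1 ≤ L := by omega
  have hLr : (1 : ℝ) ≤ L := by exact_mod_cast hL1
  have hmL : 16 ≤ m * L := by
    have h4 : 16 / m ≤ L := h3.trans (by exact_mod_cast (by omega : L₃ ≤ L))
    rw [div_le_iff₀ hm] at h4
    linarith
  refine ⟨hL1, fun k => ⟨?_, ?_⟩, fun A => ?_⟩
  · have := h1 L (by omega) hL1 k
    have e : -(4 ^ k * (m * (L : ℝ))) / 4 = -(4 ^ k * (m / 4 * L)) := by ring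
    rw [e]
    exact this
  · have h5 := h2 L (by omega) hL1 k
    have hexp : Real.exp (-(4 ^ k * (m * (L : ℝ))) / 4) ≤
        Real.exp (-(4 ^ k * (m / 8 * L))) * (1 / 2) ^ (2 ^ (k + 1)) := by
      have e2 : ((1 : ℝ) / 2) ^ (2 ^ (k + 1)) = Real.exp (-(Real.log 2 * 2 ^ (k + 1))) := by
        rw [one_div, inv_pow, Real.exp_neg, mul_comm, ← Nat.cast_ofNat (R := ℝ) (n := 2)]
        rw [show ((2 : ℕ) : ℝ) ^ (k + 1) = ((2 ^ (k + 1) : ℕ) : ℝ) by push_cast; ring,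
          Real.exp_nat_mul, Real.exp_log (by norm_num)]
      rw [e2, ← Real.exp_add, Real.exp_le_exp]
      have hlog : Real.log 2 ≤ 1 := by
        have := Real.log_le_sub_one_of_pos (show (0 : ℝ) < 2 by norm_num)
        linarith
      have h24 : (2 : ℝ) ^ (k + 1) ≤ 2 * 4 ^ k := by
        rw [pow_succ, mul_comm]
        have : (2 : ℝ) ^ k ≤ 4 ^ k := pow_le_pow_left₀ (by norm_num) (by norm_num) _
        linarith
      have h6 : Real.log 2 * 2 ^ (k + 1) ≤ 1 * (2 * 4 ^ k) :=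
        mul_le_mul hlog h24 (by positivity) (by norm_num)
      have h7 : (0 : ℝ) < 4 ^ k := by positivity
      nlinarith
    have hq : (0 : ℝ) < 4 * 209 ^ (2 * d) := by positivity
    calc 6 * ρ * (105 * (52 ^ k * (L : ℝ))) ^ (3 * d + 1) *
          Real.exp (-(4 ^ k * (m * (L : ℝ))) / 4)
        ≤ 6 * ρ * (105 * (52 ^ k * (L : ℝ))) ^ (3 * d + 1) *
          (Real.exp (-(4 ^ k * (m / 8 * L))) * (1 / 2) ^ (2 ^ (k + 1))) :=
          mul_le_mul_of_nonneg_left hexp (by positivity)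
      _ = 1 / (4 * 209 ^ (2 * d)) * (6 * ρ * (4 * 209 ^ (2 * d)) *
            (105 * (52 ^ k * (L : ℝ))) ^ (3 * d + 1) * Real.exp (-(4 ^ k * (m / 8 * L)))) *
            (1 / 2) ^ (2 ^ (k + 1)) := by
          field_simp
      _ ≤ 1 / (4 * 209 ^ (2 * d)) * 1 * (1 / 2) ^ (2 ^ (k + 1)) := by
          refine mul_le_mul_of_nonneg_right (mul_le_mul_of_nonneg_left h5 (by positivity))
            (by positivity)
      _ = 1 / (4 * 209 ^ (2 * d)) * (1 / 2) ^ (2 ^ (k + 1)) := by rw [mul_one]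
  · obtain ⟨k₁, g1⟩ := large L (Real.log 2) A hLr (Real.log_pos (by norm_num))
    obtain ⟨k₂, g2⟩ := large L (m * L) A hLr (by positivity)
    have hrp : ∀ k : ℕ, (((52 ^ k * L : ℕ) : ℝ)) ^ (-(A : ℝ)) = ((52 ^ k * (L : ℝ)) ^ A)⁻¹ := by
      intro k
      rw [Real.rpow_neg (by positivity), Real.rpow_natCast]
      push_cast
      rfl
    refine ⟨k₁ + k₂ + A, ?_, ?_, ?_⟩
    · have h5 : A < 52 ^ A := Nat.lt_pow_self (by norm_num)
      calc A ≤ 52 ^ A := h5.le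
        _ ≤ 52 ^ (k₁ + k₂ + A) := Nat.pow_le_pow_right (by norm_num) (by omega)
        _ ≤ 52 ^ (k₁ + k₂ + A) * L := Nat.le_mul_of_pos_right _ (by omega)
    · rw [hrp]
      have h5 := g1 (k₁ + k₂ + A) (by omega)
      have e2 : ((1 : ℝ) / 2) ^ (2 ^ (k₁ + k₂ + A)) =
          Real.exp (-(2 ^ (k₁ + k₂ + A) * Real.log 2)) := by
        rw [one_div, inv_pow, Real.exp_neg, ← Nat.cast_ofNat (R := ℝ) (n := 2)]
        rw [show ((2 : ℕ) : ℝ) ^ (k₁ + k₂ + A) = ((2 ^ (k₁ + k₂ + A) : ℕ) : ℝ) by push_cast; ring,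
          Real.exp_nat_mul, Real.exp_log (by norm_num)]
      rw [e2]
      exact h5
    · rw [hrp]
      refine le_trans ?_ (g2 (k₁ + k₂ + A) (by omega))
      rw [Real.exp_le_exp]
      have h6 : (2 : ℝ) ^ (k₁ + k₂ + A) ≤ 4 ^ (k₁ + k₂ + A) :=
        pow_le_pow_left₀ (by norm_num) (by norm_num) _
      have h7 : 0 < m * (L : ℝ) := by positivity
      nlinarith

end Pool.Agent.LE.H15
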