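import Pool.Agent.LE.Stmts2
import Pool.Agent.Helper54_Ballistic.Law

/-!
# Row NOE: from the site `0` and fixed constants to all exponentially decaying eigenfunctions
-/

set_option autoImplicit false

open MeasureTheory Function

open scoped ENNReal BigOperators

noncomputable section

namespace Pool.Agent.LE.H15

open Pool.Agent.Anderson Pool.Agent.Loc Pool.Agent.Helper54.Bal
  Pool.Agent.Helper96.EXP Pool.Agent.LE

variable {d : ℕ}

theorem sd_add_right (x y : Site d) : sd (x + y) x = sd 0 y := by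
  rw [sd_comm 0 y]
  unfold sd
  congr 1
  funext i
  congr 1
  simp

/-- a real solution which does not vanish at `y` gives a normalised solution of the translated
potential -/
theorem sol_of_real {V : Site d → ℝ} {E B m : ℝ} (hm : 0 < m) {φ : Site d → ℝ}
    (h : ∀ x, lapR φ x + V x * φ x = E * φ x) (hd : ∀ x, |φ x| ≤ B * Real.exp (-m * sd 0 x))
    {y : Site d} (hy : φ y ≠ 0) :
    ∃ C : ℝ, ∃ n : Site d → ℝ, Sol C m (tau y V) E n ∧ lapR n 0 + tau y V 0 = E := by
  have hB : 0 ≤ B := by
    have h1 := (abs_nonneg _).trans (hd 0)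
    have h2 := Real.exp_pos (-m * sd (0 : Site d) 0)
    by_contra hc
    push Not at hc
    nlinarith
  have hn0 : φ (0 + y) / φ y = 1 := by rw [zero_add]; exact div_self hy
  have hlap : ∀ x, lapR (fun x => φ (x + y) / φ y) x = lapR φ (x + y) / φ y := by
    intro x
    unfold lapR
    rw [Finset.sum_div]
    refine Finset.sum_congr rfl fun i _ => ?_
    have e1 : x + Pi.single i 1 + y = x + y + Pi.single i 1 := by abel
    have e2 : x - Pi.single i 1 + y = x + y - Pi.single i 1 := by abel
    beta_reduce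
    rw [e1, e2, add_div]
  have heq : ∀ x, lapR (fun x => φ (x + y) / φ y) x + tau y V x * (φ (x + y) / φ y) =
      E * (φ (x + y) / φ y) := by
    intro x
    rw [hlap]
    have := h (x + y)
    unfold tau
    rw [← mul_div_assoc, ← add_div, this, mul_div_assoc]
  refine ⟨B * Real.exp (m * sd 0 y) / |φ y|, fun x => φ (x + y) / φ y, ⟨hn0, ?_, fun x _ => heq x⟩,
    ?_⟩
  · intro x
    have h1 : |φ (x + y) / φ y| ≤ B * Real.exp (-m * sd 0 (x + y)) / |φ y| := by
      rw [abs_div]
      exact div_le_div_of_nonneg_right (hd _) (abs_nonneg _)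
    have h2 : (sd 0 x : ℝ) ≤ sd 0 (x + y) + sd 0 y := by
      have := sd_triangle 0 (x + y) x
      rw [sd_add_right] at this
      exact_mod_cast this
    have h3 : Real.exp (-m * sd 0 (x + y)) ≤ Real.exp (m * sd 0 y) * Real.exp (-m * sd 0 x) := by
      rw [← Real.exp_add, Real.exp_le_exp]
      nlinarith
    refine h1.trans ?_
    rw [div_mul_eq_mul_div]
    refine div_le_div_of_nonneg_right ?_ (abs_nonneg _)
    calc B * Real.exp (-m * sd 0 (x + y)) ≤ B * (Real.exp (m * sd 0 y) * Real.exp (-m * sd 0 x)) :=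
          mul_le_mul_of_nonneg_left h3 hB
      _ = B * Real.exp (m * sd 0 y) * Real.exp (-m * sd 0 x) := by ring
  · have := heq 0
    rw [hn0, mul_one, mul_one] at this
    exact this

/-- larger constants -/
theorem sol_mono {V : Site d → ℝ} {E C m C' m' : ℝ} {n : Site d → ℝ} (h : Sol C m V E n)
    (hC : C ≤ C') (hm : m' ≤ m) : Sol C' m' V E n := by
  obtain ⟨h1, h2, h3⟩ := h
  refine ⟨h1, fun x => ?_, h3⟩
  have h0 := h2.nonneg
  refine (h2 x).trans ?_
  have h4 : Real.exp (-m * sd 0 x) ≤ Real.exp (-m' * sd 0 x) := by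
    rw [Real.exp_le_exp]
    have : (0 : ℝ) ≤ sd 0 x := by positivity
    nlinarith
  exact mul_le_mul hC h4 (Real.exp_pos _).le (h0.trans hC)

theorem noe : NoeStmt := by
  intro d ν _ D hD hnull
  have h1 : ∀ p : Site d × ℕ × ℕ, ∀ᵐ V ∂(PP d ν), ¬ (∃ E ∈ D ∩ Set.Icc (-(p.2.1 : ℝ)) p.2.1,
      ∃ n, Sol (p.2.1 : ℝ) (1 / ((p.2.2 : ℝ) + 1)) (tau p.1 V) E n ∧
        lapR n 0 + tau p.1 V 0 = E) := by
    rintro ⟨y, k, j⟩
    have h2 := hnull (k : ℝ) (1 / ((j : ℝ) + 1)) (D ∩ Set.Icc (-(k : ℝ)) k) (by positivity)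
      (isCompact_Icc.inter_left hD) Set.inter_subset_left
    have h3 := (shiftInv_PP (d := d) ν y).quasiMeasurePreserving.preimage_null h2
    rw [ae_iff]
    simp only [not_not]
    exact h3
  have h2 := ae_all_iff.2 h1
  filter_upwards [h2] with V hV E hE ψ hψ hdec x
  obtain ⟨B, m, hm, hB⟩ := hdec
  by_contra hx
  have key : ∀ φ : Site d → ℝ, (∀ x, lapR φ x + V x * φ x = E * φ x) →
      (∀ x, |φ x| ≤ B * Real.exp (-m * sd 0 x)) → φ x ≠ 0 → False := by
    intro φ e1 e2 e3
    obtain ⟨C, n, s1, s2⟩ := sol_of_real hm e1 e2 e3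
    obtain ⟨k, hk⟩ := exists_nat_ge (max C |E|)
    obtain ⟨j, hj⟩ := exists_nat_one_div_lt hm
    refine hV (x, k, j) ⟨E, ⟨hE, ?_⟩, n, sol_mono s1 ((le_max_left _ _).trans hk) hj.le, s2⟩
    have := (le_max_right _ _).trans hk
    exact abs_le.1 this
  have hre : ∀ y, (lap ψ y).re = lapR (fun z => (ψ z).re) y := by
    intro y
    unfold lap lapR
    rw [Complex.re_sum]
    exact Finset.sum_congr rfl fun i _ => Complex.add_re _ _
  have him : ∀ y, (lap ψ y).im = lapR (fun z => (ψ z).im) y := by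
    intro y
    unfold lap lapR
    rw [Complex.im_sum]
    exact Finset.sum_congr rfl fun i _ => Complex.add_im _ _
  rcases Complex.ext_iff.not.1 hx with hx'
  rw [Complex.zero_re, Complex.zero_im, not_and_or] at hx'
  rcases hx' with h | h
  · refine key (fun z => (ψ z).re) ?_ ?_ h
    · intro y
      have := congrArg Complex.re (hψ y)
      rw [Complex.add_re, Complex.re_ofReal_mul, Complex.re_ofReal_mul, hre] at this
      exact this
    · intro y
      exact (Complex.abs_re_le_norm _).trans (hB y)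
  · refine key (fun z => (ψ z).im) ?_ ?_ h
    · intro y
      have := congrArg Complex.im (hψ y)
      rw [Complex.add_im, Complex.im_ofReal_mul, Complex.im_ofReal_mul, him] at this
      exact this
    · intro y
      exact (Complex.abs_im_le_norm _).trans (hB y)

end Pool.Agent.LE.H15
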