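import Pool.Agent.LE.StmtsR

/-!
# Row SMN: the numbers of the sharp multiscale induction
-/

set_option autoImplicit false

open scoped BigOperators

noncomputable section

namespace Pool.Agent.LE.H15

open Pool.Agent.LE

theorem smn_poly (C c : ℝ) (P : ℕ) (hC : 0 ≤ C) (hc : 0 < c) :
    ∃ X : ℝ, ∀ x : ℝ, X ≤ x → C * x ^ P ≤ Real.exp (c * x) := by
  have h := (isLittleO_pow_exp_pos_mul_atTop (k := P) hc).def (c := (C + 1)⁻¹) (by positivity)
  obtain ⟨X, hX⟩ := Filter.eventually_atTop.1 h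
  refine ⟨max X 0, fun x hx => ?_⟩
  have h0 : 0 ≤ x := (le_max_right _ _).trans hx
  have h1 := hX x ((le_max_left _ _).trans hx)
  rw [Real.norm_of_nonneg (by positivity), Real.norm_of_nonneg (Real.exp_pos _).le] at h1
  have h2 : (0 : ℝ) < C + 1 := by linarith
  have h3 : (C + 1) * x ^ P ≤ Real.exp (c * x) := by
    calc (C + 1) * x ^ P ≤ (C + 1) * ((C + 1)⁻¹ * Real.exp (c * x)) :=
          mul_le_mul_of_nonneg_left h1 h2.le
      _ = Real.exp (c * x) := by field_simp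
  have h4 : 0 ≤ x ^ P := pow_nonneg h0 P
  linarith only [h3, h4]

theorem smn_sqrt (C c : ℝ) (P : ℕ) (hC : 0 ≤ C) (hc : 0 < c) :
    ∃ X : ℝ, ∀ x : ℝ, X ≤ x → C * x ^ P ≤ Real.exp (c * Real.sqrt x) := by
  obtain ⟨X, hX⟩ := smn_poly C c (2 * P) hC hc
  refine ⟨max 0 (max X 0 ^ 2), fun x hx => ?_⟩
  have h0 : 0 ≤ x := (le_max_left _ _).trans hx
  have h1 : X ≤ Real.sqrt x :=
    (le_max_left _ _).trans (Real.le_sqrt_of_sq_le ((le_max_right _ _).trans hx))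
  have h2 := hX _ h1
  rwa [pow_mul, Real.sq_sqrt h0] at h2

/-- one step -/
theorem stepN_of {d : ℕ} {ρ m μ μ' p p' δ : ℝ} {L N M : ℕ} (hL : 1 ≤ L) (hN : 45 ≤ N)
    (hδ0 : 0 < δ) (hδμ : δ ≤ μ) (hμm : μ ≤ m) (hM : N ^ 3 * L ≤ M)
    (h1 : 2 * d * (3 * (L : ℝ)) ^ d ≤ Real.exp (δ * L))
    (h2 : 8 * (d : ℝ) ^ 2 * (33 * N * (L : ℝ)) ^ d * (3 * (L : ℝ)) ^ d ≤ Real.exp (3 * μ * L / 4))
    (h3 : δ + m * (48 / N + 1 / L) ≤ μ - μ')
    (h4 : ((7 * (M / L : ℝ)) ^ d * p) ^ (N + 1) ≤ p' / 2)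
    (h5 : 24 * ρ * (5 * (M : ℝ)) ^ (3 * d + 1) ≤ Real.exp (μ * L / 4) * p') :
    StepN d ρ L μ p M μ' p' := by
  have hLr : (1 : ℝ) ≤ L := by exact_mod_cast hL
  have hNr : (45 : ℝ) ≤ N := by exact_mod_cast hN
  have hMr : (N : ℝ) ^ 3 * L ≤ M := by exact_mod_cast hM
  have hL0 : (0 : ℝ) < L := by linarith
  have hN0 : (0 : ℝ) < N := by linarith
  have hμ0 : 0 < μ := lt_of_lt_of_le hδ0 hδμ
  have hM0 : (0 : ℝ) < M := lt_of_lt_of_le (by positivity) hMr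
  have h45 : 45 * N ^ 2 * L ≤ M := by
    refine le_trans ?_ hM
    calc 45 * N ^ 2 * L ≤ N * N ^ 2 * L := by gcongr
      _ = N ^ 3 * L := by ring
  set q : ℝ := 2 * d * (3 * (L : ℝ)) ^ d * Real.exp (-μ * L) with hq
  have hq0 : 0 ≤ q := by positivity
  have hqe : q ≤ Real.exp (-((μ - δ) * L)) := by
    calc q ≤ Real.exp (δ * L) * Real.exp (-μ * L) := by
          rw [hq]; gcongr
      _ = Real.exp (-((μ - δ) * L)) := by rw [← Real.exp_add]; congr 1; ring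
  have hq1 : q ≤ 1 :=
    hqe.trans (Real.exp_le_one_iff.2 (neg_nonpos.2 (mul_nonneg (sub_nonneg.2 hδμ) hL0.le)))
  set n : ℕ := (M - 45 * N ^ 2 * L) / (L + 1) with hn
  have hn1 : n * (L + 1) + 45 * N ^ 2 * L ≤ M := by
    have := Nat.div_mul_le_self (M - 45 * N ^ 2 * L) (L + 1)
    rw [← hn] at this
    omega
  have hn2 : M < (n + 1) * (L + 1) + 45 * N ^ 2 * L := by
    have h6 := Nat.lt_mul_div_succ (M - 45 * N ^ 2 * L) (Nat.succ_pos L)
    have h7 : (n + 1) * (L + 1) = (L + 1) * ((M - 45 * N ^ 2 * L) / (L + 1) + 1) := by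
      rw [hn]; ring
    rw [h7]
    have h8 : L.succ = L + 1 := rfl
    rw [h8] at h6
    omega
  refine ⟨N, n, Real.exp (μ * L / 4), q, by omega, Real.exp_pos _, hq1, le_refl _, ?_, hn1, ?_, ?_⟩
  · have e1 : Real.exp (μ * L / 4) * (2 * d * (33 * N * (L : ℝ)) ^ d) * q =
        (8 * (d : ℝ) ^ 2 * (33 * N * (L : ℝ)) ^ d * (3 * (L : ℝ)) ^ d) *
          Real.exp (-(3 * μ * L / 4)) / 2 := by
      have e2 : Real.exp (-(3 * μ * L / 4)) = Real.exp (μ * L / 4) * Real.exp (-μ * L) := by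
        rw [← Real.exp_add]; congr 1; ring
      rw [e2, hq]; ring
    rw [e1]
    have e3 : (8 * (d : ℝ) ^ 2 * (33 * N * (L : ℝ)) ^ d * (3 * (L : ℝ)) ^ d) *
          Real.exp (-(3 * μ * L / 4)) ≤ 1 := by
      calc _ ≤ Real.exp (3 * μ * L / 4) * Real.exp (-(3 * μ * L / 4)) := by gcongr
        _ = 1 := by rw [← Real.exp_add, add_neg_cancel, Real.exp_zero]
    linarith
  · have e1 : q ^ n * Real.exp (μ * L / 4) ≤ Real.exp (-((μ - δ) * L)) ^ n * Real.exp (μ * L / 4) := by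
      gcongr
    refine e1.trans ?_
    rw [← Real.exp_nat_mul, ← Real.exp_add]
    apply Real.exp_le_exp.2
    have hn1r : (n : ℝ) * (L + 1) + 45 * N ^ 2 * L ≤ M := by exact_mod_cast hn1
    have hn2r : (M : ℝ) < (n + 1) * (L + 1) + 45 * N ^ 2 * L := by exact_mod_cast hn2
    have hNN : (N : ℝ) ^ 2 * L ≤ M / N := by
      rw [le_div_iff₀ hN0]
      have hh : (N : ℝ) ^ 2 * L * N = (N : ℝ) ^ 3 * L := by ring
      rw [hh]
      exact hMr
    have hN2 : (1 : ℝ) ≤ N ^ 2 := one_le_pow₀ (by linarith only [hNr])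
    have hLN : (L : ℝ) ≤ N ^ 2 * L := le_mul_of_one_le_left hL0.le hN2
    have hnL : (n : ℝ) ≤ M / L := by
      rw [le_div_iff₀ hL0]
      have h9 : (0 : ℝ) ≤ 45 * N ^ 2 * L := by positivity
      have h10 : (0 : ℝ) ≤ n := Nat.cast_nonneg n
      linarith only [hn1r, h9, h10]
    have hnLL : (M : ℝ) - 47 * (M / N) - M / L ≤ n * L := by
      have h11 : (n : ℝ) * L = n * (L + 1) - n := by ring
      rw [h11]
      linarith only [hn2r, hNN, hLN, hLr, hnL]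
    have h12 : (μ - δ) * ((M : ℝ) - 47 * (M / N) - M / L) ≤ (μ - δ) * (n * L) :=
      mul_le_mul_of_nonneg_left hnLL (by linarith)
    have h13 : (M : ℝ) * (δ + m * (48 / N + 1 / L)) ≤ M * (μ - μ') :=
      mul_le_mul_of_nonneg_left h3 hM0.le
    have h14 : (M : ℝ) * (δ + m * (48 / N + 1 / L)) = M * δ + m * (48 * (M / N) + M / L) := by
      ring
    have h15 : μ * (48 * ((M : ℝ) / N) + M / L) ≤ m * (48 * (M / N) + M / L) :=
      mul_le_mul_of_nonneg_right hμm (by positivity)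
    have h16 : 0 ≤ δ * (47 * ((M : ℝ) / N) + M / L) := by positivity
    have h17 : μ * (L / 4) ≤ μ * (M / N) := by
      apply mul_le_mul_of_nonneg_left _ hμ0.le
      linarith only [hLN, hNN, hL0]
    linarith only [h12, h13, h14, h15, h16, h17]
  · have e1 : 12 * ρ * (5 * (M : ℝ)) ^ (3 * d + 1) / Real.exp (μ * L / 4) ≤ p' / 2 := by
      rw [div_le_iff₀ (Real.exp_pos _)]
      linarith only [h5]
    linarith only [e1, h4]

/-- the scales -/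
def scl (N0 L k : ℕ) : ℕ := L * ∏ i ∈ Finset.range k, (2 ^ i * N0) ^ 3

theorem scl_succ (N0 L k : ℕ) : scl N0 L (k + 1) = (2 ^ k * N0) ^ 3 * scl N0 L k := by
  unfold scl
  rw [Finset.prod_range_succ]
  ring

theorem scl_le (N0 L : ℕ) (h : 8 ≤ N0) : ∀ k, 8 ^ k * L ≤ scl N0 L k
  | 0 => by simp [scl]
  | k + 1 => by
    rw [scl_succ]
    have h1 : 8 ≤ (2 ^ k * N0) ^ 3 := by
      have h2 : 8 ≤ 2 ^ k * N0 := h.trans (Nat.le_mul_of_pos_left _ (by positivity))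
      exact h2.trans (Nat.le_self_pow (by norm_num) _)
    calc 8 ^ (k + 1) * L = 8 * (8 ^ k * L) := by ring
      _ ≤ (2 ^ k * N0) ^ 3 * scl N0 L k := Nat.mul_le_mul h1 (scl_le N0 L h k)

theorem scl_exp (N0 L : ℕ) : ∀ k, (scl N0 L k : ℝ) ≤ Real.exp ((L + 3 * (1 + N0)) * 3 ^ k)
  | 0 => by
    simp only [scl, Finset.range_zero, Finset.prod_empty, mul_one, pow_zero]
    have h1 := Real.add_one_le_exp ((L : ℝ) + 3 * (1 + N0))
    have h2 : (0 : ℝ) ≤ N0 := Nat.cast_nonneg _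
    linarith
  | k + 1 => by
    rw [scl_succ]
    push_cast
    have h1 : ((2 : ℝ) ^ k * N0) ^ 3 ≤ Real.exp (3 * (1 + N0) * 3 ^ k) := by
      have h2 : (2 : ℝ) ^ k ≤ Real.exp (3 ^ k) := by
        have h3 := Real.add_one_le_exp ((3 : ℝ) ^ k)
        have h4 : (2 : ℝ) ^ k ≤ 3 ^ k := pow_le_pow_left₀ (by norm_num) (by norm_num) k
        linarith
      have h5 : (N0 : ℝ) ≤ Real.exp (N0 * 3 ^ k) := by
        have h6 := Real.add_one_le_exp ((N0 : ℝ) * 3 ^ k)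
        have h7 : (N0 : ℝ) ≤ N0 * 3 ^ k :=
          le_mul_of_one_le_right (Nat.cast_nonneg _) (one_le_pow₀ (by norm_num))
        linarith
      calc ((2 : ℝ) ^ k * N0) ^ 3 ≤ (Real.exp (3 ^ k) * Real.exp (N0 * 3 ^ k)) ^ 3 := by
            gcongr
        _ = Real.exp (3 * (1 + N0) * 3 ^ k) := by
            rw [← Real.exp_add, ← Real.exp_nat_mul]; congr 1; push_cast; ring
    calc ((2 : ℝ) ^ k * N0) ^ 3 * scl N0 L k
        ≤ Real.exp (3 * (1 + N0) * 3 ^ k) * Real.exp ((L + 3 * (1 + N0)) * 3 ^ k) :=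
          mul_le_mul h1 (scl_exp N0 L k) (Nat.cast_nonneg _) (Real.exp_pos _).le
      _ = Real.exp (((L : ℝ) + 6 * (1 + N0)) * 3 ^ k) := by
          rw [← Real.exp_add]; congr 1; ring
      _ ≤ Real.exp (((L : ℝ) + 3 * (1 + N0)) * 3 ^ (k + 1)) := by
          apply Real.exp_le_exp.2
          have h8 : (0 : ℝ) < 3 ^ k := by positivity
          have h9 : (0 : ℝ) ≤ L := Nat.cast_nonneg _
          have h10 : (0 : ℝ) ≤ N0 := Nat.cast_nonneg _
          rw [pow_succ]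
          linarith only [mul_nonneg h8.le h9, mul_nonneg h8.le h10, h8]

theorem x0_ok (d N0 : ℕ) (k : ℕ) : (56 * ((2 : ℝ) ^ k * N0) ^ 6) ^ d ≤
    Real.exp (4 ^ k * (2 * d * (56 * (N0 : ℝ) ^ 6 + 3)) / 2) := by
  have h1 : (4 : ℝ) ^ k ≤ Real.exp (4 ^ k) := by
    have := Real.add_one_le_exp ((4 : ℝ) ^ k)
    linarith
  have h2 : 56 * (N0 : ℝ) ^ 6 ≤ Real.exp (56 * (N0 : ℝ) ^ 6 * 4 ^ k) := by
    have h6 := Real.add_one_le_exp (56 * (N0 : ℝ) ^ 6 * 4 ^ k)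
    have h7 : 56 * (N0 : ℝ) ^ 6 ≤ 56 * (N0 : ℝ) ^ 6 * 4 ^ k :=
      le_mul_of_one_le_right (by positivity) (one_le_pow₀ (by norm_num))
    linarith
  have h3 : 56 * ((2 : ℝ) ^ k * N0) ^ 6 ≤ Real.exp ((56 * (N0 : ℝ) ^ 6 + 3) * 4 ^ k) := by
    calc 56 * ((2 : ℝ) ^ k * N0) ^ 6 = (56 * (N0 : ℝ) ^ 6) * (4 ^ k) ^ 3 := by
          rw [mul_pow, ← pow_mul, ← pow_mul, mul_comm k 6, mul_comm k 3, pow_mul, pow_mul (4 : ℝ)]
          norm_num
          ring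
      _ ≤ Real.exp (56 * (N0 : ℝ) ^ 6 * 4 ^ k) * Real.exp (4 ^ k) ^ 3 := by
          gcongr
      _ = Real.exp ((56 * (N0 : ℝ) ^ 6 + 3) * 4 ^ k) := by
          rw [← Real.exp_nat_mul, ← Real.exp_add]; congr 1; push_cast; ring
  calc (56 * ((2 : ℝ) ^ k * N0) ^ 6) ^ d ≤ Real.exp ((56 * (N0 : ℝ) ^ 6 + 3) * 4 ^ k) ^ d := by
        gcongr
    _ = _ := by rw [← Real.exp_nat_mul]; congr 1; ring

theorem scl_mono (N0 L : ℕ) (h : 8 ≤ N0) : Monotone (scl N0 L) := by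
  refine monotone_nat_of_le_succ fun k => ?_
  rw [scl_succ]
  exact Nat.le_mul_of_pos_left _ (by positivity)

theorem scl_find (N0 L k0 M : ℕ) (h : 8 ≤ N0) (hL : 1 ≤ L) (hM : scl N0 L (k0 + 1) ≤ M) :
    ∃ k, k0 ≤ k ∧ scl N0 L (k + 1) ≤ M ∧ M < scl N0 L (k + 2) := by
  have hex : ∃ j, M < scl N0 L j := ⟨M, by
    have h1 := scl_le N0 L h M
    have h2 : M < 8 ^ M := Nat.lt_pow_self (by norm_num)
    exact h2.trans_le ((Nat.le_mul_of_pos_right _ hL).trans h1)⟩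
  classical
  set j := Nat.find hex with hj
  have h1 : M < scl N0 L j := Nat.find_spec hex
  have h2 : k0 + 2 ≤ j := by
    by_contra hcon
    have h3 : scl N0 L j ≤ scl N0 L (k0 + 1) := scl_mono N0 L h (by omega)
    omega
  refine ⟨j - 2, by omega, ?_, ?_⟩
  · have h4 : ¬ M < scl N0 L (j - 2 + 1) := Nat.find_min hex (by omega)
    omega
  · rwa [show j - 2 + 2 = j by omega]

theorem smn_exp_half {y : ℝ} (hy : 1 ≤ y) : Real.exp (-y) ≤ 1 / 2 := by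
  have e9 : Real.exp (-y) ≤ Real.exp (-1) := Real.exp_le_exp.2 (by linarith only [hy])
  have e10 : Real.exp (-1) ≤ 1 / 2 := by
    rw [Real.exp_neg, ← one_div, one_div_le_one_div (Real.exp_pos _) (by norm_num)]
    have := Real.add_one_le_exp (1 : ℝ)
    linarith only [this]
  exact e9.trans e10

/-- the probabilities, exact scales -/
theorem smn_p1 {d N0 k : ℕ} {x0 : ℝ} (hN0r : (48 : ℝ) ≤ N0) (hN : 45 ≤ 2 ^ k * N0) (hx2 : 2 ≤ x0)
    (hx0k : (56 * ((2 : ℝ) ^ k * N0) ^ 6) ^ d ≤ Real.exp (4 ^ k * x0 / 2)) :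
    ((7 * ((2 : ℝ) ^ k * N0) ^ 3) ^ d * Real.exp (-(4 ^ k * x0))) ^ (2 ^ k * N0 + 1) ≤
      Real.exp (-(4 ^ (k + 1) * x0)) / 2 := by
  have e2 : (7 * ((2 : ℝ) ^ k * N0) ^ 3) ^ d ≤ Real.exp (4 ^ k * x0 / 2) := by
    refine le_trans ?_ hx0k
    have e3 : (1 : ℝ) ≤ 2 ^ k * N0 := by
      have : (1 : ℝ) ≤ 2 ^ k := one_le_pow₀ (by norm_num)
      nlinarith only [this, hN0r]
    have e4 : ((2 : ℝ) ^ k * N0) ^ 3 ≤ (2 ^ k * N0) ^ 6 := pow_le_pow_right₀ e3 (by norm_num)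
    have e5 : (0 : ℝ) ≤ (2 ^ k * N0) ^ 3 := by positivity
    gcongr ?_ ^ d
    linarith only [e4, e5]
  have e6 : (7 * ((2 : ℝ) ^ k * N0) ^ 3) ^ d * Real.exp (-(4 ^ k * x0)) ≤
      Real.exp (-(4 ^ k * x0 / 2)) := by
    calc _ ≤ Real.exp (4 ^ k * x0 / 2) * Real.exp (-(4 ^ k * x0)) :=
          mul_le_mul_of_nonneg_right e2 (Real.exp_pos _).le
      _ = Real.exp (-(4 ^ k * x0 / 2)) := by rw [← Real.exp_add]; congr 1; ring
  have e7 : Real.exp (-(4 ^ k * x0 / 2)) ≤ 1 / 2 := by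
    apply smn_exp_half
    have : (1 : ℝ) ≤ 4 ^ k := one_le_pow₀ (by norm_num)
    nlinarith only [this, hx2]
  have e11 : Real.exp (-(4 ^ (k + 1) * x0)) = Real.exp (-(4 ^ k * x0 / 2)) ^ 8 := by
    rw [← Real.exp_nat_mul]; congr 1; push_cast; ring
  rw [e11]
  have e0 : (0 : ℝ) ≤ (7 * ((2 : ℝ) ^ k * N0) ^ 3) ^ d * Real.exp (-(4 ^ k * x0)) := by positivity
  set y : ℝ := Real.exp (-(4 ^ k * x0 / 2)) with hy
  have hy0 : 0 ≤ y := (Real.exp_pos _).le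
  calc ((7 * ((2 : ℝ) ^ k * N0) ^ 3) ^ d * Real.exp (-(4 ^ k * x0))) ^ (2 ^ k * N0 + 1)
      ≤ y ^ (2 ^ k * N0 + 1) := pow_le_pow_left₀ e0 e6 _
    _ ≤ y ^ 9 := pow_le_pow_of_le_one hy0 (by linarith only [e7]) (by omega)
    _ = y ^ 8 * y := pow_succ _ _
    _ ≤ y ^ 8 * (1 / 2) := mul_le_mul_of_nonneg_left e7 (pow_nonneg hy0 8)
    _ = y ^ 8 / 2 := by ring

/-- the error terms, exact scales -/
theorem smn_p2 {d N0 k L : ℕ} {ρ m x μk x0 : ℝ} (hρ : 0 < ρ) (hm : 0 < m) (hx1 : 1 ≤ x)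
    (hx2' : (2 : ℝ) ^ k ≤ x) (hx4 : (4 : ℝ) ^ k * L ≤ x) (hLa : 64 * x0 ≤ m * L)
    (hμ2 : m / 2 ≤ μk)
    (hX3 : 24 * ρ * (5 * (N0 : ℝ) ^ 3) ^ (3 * d + 1) * x ^ (4 * (3 * d + 1)) ≤
      Real.exp (m / 16 * x)) :
    24 * ρ * (5 * (((2 : ℝ) ^ k * N0) ^ 3 * x)) ^ (3 * d + 1) ≤
      Real.exp (μk * x / 4) * Real.exp (-(4 ^ (k + 1) * x0)) := by
  have hx0 : 0 < x := by linarith only [hx1]
  calc 24 * ρ * (5 * (((2 : ℝ) ^ k * N0) ^ 3 * x)) ^ (3 * d + 1)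
      ≤ 24 * ρ * (5 * ((x * N0) ^ 3 * x)) ^ (3 * d + 1) := by gcongr
    _ = 24 * ρ * (5 * (N0 : ℝ) ^ 3) ^ (3 * d + 1) * x ^ (4 * (3 * d + 1)) := by
        have e1 : 5 * ((x * N0) ^ 3 * x) = (5 * (N0 : ℝ) ^ 3) * x ^ 4 := by ring
        rw [e1, mul_pow (5 * (N0 : ℝ) ^ 3), ← pow_mul]
        ring
    _ ≤ Real.exp (m / 16 * x) := hX3
    _ ≤ Real.exp (μk * x / 4) * Real.exp (-(4 ^ (k + 1) * x0)) := by
        rw [← Real.exp_add]
        apply Real.exp_le_exp.2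
        have e3 : (64 * x0) * 4 ^ k ≤ (m * L) * 4 ^ k :=
          mul_le_mul_of_nonneg_right hLa (by positivity)
        have e4 : m * (4 ^ k * L) ≤ m * x := mul_le_mul_of_nonneg_left hx4 hm.le
        rw [pow_succ]
        have e5 : m / 2 * x ≤ μk * x := mul_le_mul_of_nonneg_right hμ2 hx0.le
        linarith only [e3, e4, e5]

/-- the probabilities, general scales -/
theorem smn_p3 {d N0 k : ℕ} {x0 x M : ℝ} (hN : 45 ≤ 2 ^ k * N0) (hx2 : 2 ≤ x0)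
    (hx0k : (56 * ((2 : ℝ) ^ k * N0) ^ 6) ^ d ≤ Real.exp (4 ^ k * x0 / 2)) (hM0 : 0 < M)
    (hx : 0 < x) (hMu : M ≤ 8 * ((2 : ℝ) ^ k * N0) ^ 6 * x) :
    ((7 * (M / x)) ^ d * Real.exp (-(4 ^ k * x0))) ^ (2 ^ k * N0 + 1) ≤
      Real.exp (-(4 ^ k * x0)) := by
  have e0 : M / x ≤ 8 * ((2 : ℝ) ^ k * N0) ^ 6 := by
    rw [div_le_iff₀ hx]
    exact hMu
  have e00 : 0 ≤ M / x := (div_pos hM0 hx).le
  have e6 : (7 * (M / x)) ^ d * Real.exp (-(4 ^ k * x0)) ≤ Real.exp (-(4 ^ k * x0 / 2)) := by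
    calc _ ≤ (7 * (8 * ((2 : ℝ) ^ k * N0) ^ 6)) ^ d * Real.exp (-(4 ^ k * x0)) := by
          gcongr
      _ = (56 * ((2 : ℝ) ^ k * N0) ^ 6) ^ d * Real.exp (-(4 ^ k * x0)) := by
          rw [← mul_assoc]; norm_num
      _ ≤ Real.exp (4 ^ k * x0 / 2) * Real.exp (-(4 ^ k * x0)) :=
          mul_le_mul_of_nonneg_right hx0k (Real.exp_pos _).le
      _ = Real.exp (-(4 ^ k * x0 / 2)) := by rw [← Real.exp_add]; congr 1; ring
  have e8 : Real.exp (-(4 ^ k * x0 / 2)) ≤ 1 := Real.exp_le_one_iff.2 (by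
    have : 0 ≤ 4 ^ k * x0 := mul_nonneg (by positivity) (by linarith only [hx2])
    linarith only [this])
  calc _ ≤ Real.exp (-(4 ^ k * x0 / 2)) ^ (2 ^ k * N0 + 1) := by
        gcongr
    _ ≤ Real.exp (-(4 ^ k * x0 / 2)) ^ 2 :=
        pow_le_pow_of_le_one (Real.exp_pos _).le e8 (by omega)
    _ = Real.exp (-(4 ^ k * x0)) := by
        rw [← Real.exp_nat_mul]; congr 1; push_cast; ring

/-- the probabilities against the power of the scale -/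
theorem smn_p4 {A' k k0 : ℕ} {x0 K M : ℝ} (hx2 : 2 ≤ x0) (hK : 0 ≤ K) (hM0 : 0 < M)
    (hMe : M ≤ Real.exp (K * 3 ^ (k + 2))) (hk0 : 14 * A' * K ≤ k0) (hkr : (k0 : ℝ) ≤ k) :
    Real.exp (-(4 ^ k * x0)) ≤ (M ^ A')⁻¹ / 2 := by
  have e10 : 2 * M ^ A' ≤ Real.exp (4 ^ k * x0) := by
    have g1 : M ^ A' ≤ Real.exp (9 * A' * K * 3 ^ k) := by
      calc M ^ A' ≤ Real.exp (K * 3 ^ (k + 2)) ^ A' := pow_le_pow_left₀ hM0.le hMe _
        _ = Real.exp (9 * A' * K * 3 ^ k) := by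
          rw [← Real.exp_nat_mul, pow_add]; congr 1; ring
    have g2 : (2 : ℝ) ≤ Real.exp 1 := by
      have := Real.add_one_le_exp (1 : ℝ)
      linarith only [this]
    have g3 : 1 + 9 * A' * K * 3 ^ k ≤ 4 ^ k * x0 := by
      have b1 := one_add_mul_le_pow (a := (1 / 3 : ℝ)) (by norm_num) k
      have b2 : (4 : ℝ) ^ k = 3 ^ k * (1 + 1 / 3) ^ k := by
        rw [← mul_pow]; norm_num
      have b3 : 14 * A' * K ≤ k := hk0.trans hkr
      have b4 : (1 : ℝ) ≤ 3 ^ k := one_le_pow₀ (by norm_num)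
      have b5 : (3 : ℝ) ^ k * (1 + k * (1 / 3)) ≤ 4 ^ k := by
        rw [b2]
        exact mul_le_mul_of_nonneg_left b1 (by positivity)
      have b6 : (4 : ℝ) ^ k * 2 ≤ 4 ^ k * x0 := mul_le_mul_of_nonneg_left hx2 (by positivity)
      have b7 : (3 : ℝ) ^ k * (14 * A' * K) ≤ 3 ^ k * k :=
        mul_le_mul_of_nonneg_left b3 (by positivity)
      have b8 : (0 : ℝ) ≤ 3 ^ k * (A' * K) := by positivity
      linarith only [b4, b5, b6, b7, b8]
    calc 2 * M ^ A' ≤ Real.exp 1 * Real.exp (9 * A' * K * 3 ^ k) :=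
          mul_le_mul g2 g1 (pow_nonneg hM0.le _) (Real.exp_pos _).le
      _ = Real.exp (1 + 9 * A' * K * 3 ^ k) := by rw [← Real.exp_add]
      _ ≤ Real.exp (4 ^ k * x0) := Real.exp_le_exp.2 g3
  have hMA : 0 < M ^ A' := pow_pos hM0 _
  rw [Real.exp_neg, ← one_div, ← one_div, div_div]
  apply one_div_le_one_div_of_le (by positivity)
  linarith only [e10]

/-- the error terms, general scales -/
theorem smn_p5 {d N0 A' : ℕ} {ρ m x μk M : ℝ} (hρ : 0 < ρ) (hx1 : 1 ≤ x) (hM0 : 0 < M)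
    (hMx : M ≤ 8 * (N0 : ℝ) ^ 6 * x ^ 7) (hμ2 : m / 2 ≤ μk)
    (hX5 : 24 * ρ * (40 * (N0 : ℝ) ^ 6) ^ (3 * d + 1) *
      (8 * (N0 : ℝ) ^ 6) ^ A' * x ^ (7 * (3 * d + 1) + 7 * A') ≤ Real.exp (m / 8 * x)) :
    24 * ρ * (5 * M) ^ (3 * d + 1) ≤ Real.exp (μk * x / 4) * (M ^ A')⁻¹ := by
  have hx0 : 0 < x := by linarith only [hx1]
  have hMA : 0 < M ^ A' := pow_pos hM0 _
  rw [← div_eq_mul_inv, le_div_iff₀ hMA]
  calc 24 * ρ * (5 * M) ^ (3 * d + 1) * M ^ A'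
      ≤ 24 * ρ * (5 * (8 * (N0 : ℝ) ^ 6 * x ^ 7)) ^ (3 * d + 1) *
        (8 * (N0 : ℝ) ^ 6 * x ^ 7) ^ A' := by gcongr
    _ = 24 * ρ * (40 * (N0 : ℝ) ^ 6) ^ (3 * d + 1) *
        (8 * (N0 : ℝ) ^ 6) ^ A' * x ^ (7 * (3 * d + 1) + 7 * A') := by
        have g1 : 5 * (8 * (N0 : ℝ) ^ 6 * x ^ 7) = (40 * (N0 : ℝ) ^ 6) * x ^ 7 := by ring
        rw [g1, mul_pow (40 * (N0 : ℝ) ^ 6), mul_pow (8 * (N0 : ℝ) ^ 6), ← pow_mul,
          ← pow_mul, pow_add x]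
        ring
    _ ≤ Real.exp (m / 8 * x) := hX5
    _ ≤ Real.exp (μk * x / 4) := by
        apply Real.exp_le_exp.2
        have := mul_le_mul_of_nonneg_right hμ2 hx0.le
        linarith only [this]

theorem smn_const (d : ℕ) (ρ m ε A : ℝ) (hd : 1 ≤ d) (hρ : 0 < ρ) (hε : 0 < ε) (hεm : ε < m) :
    ∃ N0 : ℕ, 48 ≤ N0 ∧ 400 * m / ε ≤ N0 := by
  obtain ⟨n, hn⟩ := exists_nat_ge (400 * m / ε)
  exact ⟨max 48 n, le_max_left _ _, hn.trans (by exact_mod_cast le_max_right _ _)⟩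

/-- SMN -/
theorem smn : SmnStmt := by
  intro d ρ m ε A hd hρ hε hεm
  obtain ⟨N0, hN48, hN0⟩ := smn_const d ρ m ε A hd hρ hε hεm
  have hm : 0 < m := hε.trans hεm
  have hd1 : (1 : ℝ) ≤ d := by exact_mod_cast hd
  have hN0r : (48 : ℝ) ≤ N0 := by exact_mod_cast hN48
  set x0 : ℝ := 2 * d * (56 * (N0 : ℝ) ^ 6 + 3) with hx0
  have hx2 : 2 ≤ x0 := by
    have h1 : (0 : ℝ) ≤ 56 * (N0 : ℝ) ^ 6 := by positivity
    rw [hx0]; nlinarith only [h1, hd1]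
  have hx0k := x0_ok d N0
  rw [← hx0] at hx0k
  obtain ⟨X1, hX1⟩ := smn_sqrt (2 * d * 3 ^ d) (ε / 16) d (by positivity) (by positivity)
  obtain ⟨X2, hX2⟩ := smn_poly (8 * (d : ℝ) ^ 2 * (33 * N0) ^ d * 3 ^ d) (3 * m / 8) (3 * d)
    (by positivity) (by positivity)
  obtain ⟨X3, hX3⟩ := smn_poly (24 * ρ * (5 * (N0 : ℝ) ^ 3) ^ (3 * d + 1)) (m / 16)
    (4 * (3 * d + 1)) (by positivity) (by positivity)
  obtain ⟨A', hA'⟩ := exists_nat_ge A
  obtain ⟨X5, hX5⟩ := smn_poly (24 * ρ * (40 * (N0 : ℝ) ^ 6) ^ (3 * d + 1) *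
    (8 * (N0 : ℝ) ^ 6) ^ A') (m / 8) (7 * (3 * d + 1) + 7 * A') (by positivity) (by positivity)
  obtain ⟨L₀, hL₀⟩ := exists_nat_ge (max (max X1 X2) (max X3 (max (64 * x0 / m) (16 * m / ε))))
  have a1 : X1 ≤ L₀ := ((le_max_left _ _).trans (le_max_left _ _)).trans hL₀
  have a2 : X2 ≤ L₀ := ((le_max_right _ _).trans (le_max_left _ _)).trans hL₀
  have a3 : X3 ≤ L₀ := ((le_max_left _ _).trans (le_max_right _ _)).trans hL₀
  have a4 : 64 * x0 / m ≤ L₀ :=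
    (((le_max_left _ _).trans (le_max_right _ _)).trans (le_max_right _ _)).trans hL₀
  have a5 : 16 * m / ε ≤ L₀ :=
    (((le_max_right _ _).trans (le_max_right _ _)).trans (le_max_right _ _)).trans hL₀
  refine ⟨Real.exp (-x0), Real.exp_pos _, L₀, fun L hL => ?_⟩
  have hLr : (L₀ : ℝ) ≤ L := by exact_mod_cast hL
  have hLa : 64 * x0 ≤ m * L := by
    have := a4.trans hLr
    rw [div_le_iff₀ hm] at this
    linarith only [this]
  have hLb : 16 * m ≤ ε * L := by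
    have := a5.trans hLr
    rw [div_le_iff₀ hε] at this
    linarith only [this]
  have hL1r : (1 : ℝ) ≤ L := by
    by_contra hcon
    push Not at hcon
    nlinarith only [hcon, hLb, hε, hεm]
  have hL1 : 1 ≤ L := by exact_mod_cast hL1r
  -- the facts of the scale `k`
  have f8 : ∀ k, (8 : ℝ) ^ k * L ≤ scl N0 L k := fun k => by
    exact_mod_cast scl_le N0 L (by omega) k
  have fL : ∀ k, (L : ℝ) ≤ scl N0 L k := fun k =>
    (le_mul_of_one_le_left (by linarith only [hL1r]) (one_le_pow₀ (by norm_num))).trans (f8 k)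
  have f4 : ∀ k, (4 : ℝ) ^ k * L ≤ scl N0 L k := fun k =>
    (mul_le_mul_of_nonneg_right (pow_le_pow_left₀ (by norm_num) (by norm_num) k)
      (by linarith only [hL1r])).trans (f8 k)
  have f4' : ∀ k, (4 : ℝ) ^ k ≤ scl N0 L k := fun k =>
    (le_mul_of_one_le_right (by positivity) hL1r).trans (f4 k)
  have f2 : ∀ k, (2 : ℝ) ^ k ≤ Real.sqrt (scl N0 L k) := fun k => by
    apply Real.le_sqrt_of_sq_le
    calc ((2 : ℝ) ^ k) ^ 2 = 4 ^ k := by rw [← pow_mul, mul_comm, pow_mul]; norm_num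
      _ ≤ scl N0 L k := f4' k
  have f2' : ∀ k, (2 : ℝ) ^ k ≤ scl N0 L k := fun k =>
    (pow_le_pow_left₀ (by norm_num) (by norm_num) k).trans (f4' k)
  set μ : ℕ → ℝ := fun k => m - ε / 2 + ε / 2 * (1 / 2) ^ k with hμ
  have hμm : ∀ k, μ k ≤ m := fun k => by
    have : ((1 : ℝ) / 2) ^ k ≤ 1 := pow_le_one₀ (by norm_num) (by norm_num)
    simp only [hμ]
    nlinarith only [this, hε]
  have hμ2 : ∀ k, m / 2 ≤ μ k := fun k => by
    have : 0 ≤ ((1 : ℝ) / 2) ^ k := by positivity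
    simp only [hμ]
    nlinarith only [this, hε, hεm]
  have hN45 : ∀ k, 45 ≤ 2 ^ k * N0 := fun k =>
    (by omega : 45 ≤ N0).trans (Nat.le_mul_of_pos_left _ (by positivity))
  have key : ∀ (k M : ℕ) (μ' p' : ℝ), (2 ^ k * N0) ^ 3 * scl N0 L k ≤ M →
      μ' ≤ μ (k + 1) →
      ((7 * ((M : ℝ) / (scl N0 L k : ℕ))) ^ d * Real.exp (-(4 ^ k * x0))) ^ (2 ^ k * N0 + 1) ≤
        p' / 2 →
      24 * ρ * (5 * (M : ℝ)) ^ (3 * d + 1) ≤ Real.exp (μ k * (scl N0 L k : ℕ) / 4) * p' →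
      StepN d ρ (scl N0 L k) (μ k) (Real.exp (-(4 ^ k * x0))) M μ' p' := by
    intro k M μ' p' hM hμ' h4 h5
    have hx := f2 k
    have hxL := fL k
    have hx4 := f4 k
    have hx8 := f8 k
    have hx2' := f2' k
    have hx1 : (1 : ℝ) ≤ scl N0 L k := hL1r.trans hxL
    have hxn : 1 ≤ scl N0 L k := by exact_mod_cast hx1
    set x : ℝ := (scl N0 L k : ℝ) with hxdef
    have h2k : (0 : ℝ) < 2 ^ k := by positivity
    have hδx : ε / 16 * Real.sqrt x ≤ ε / 16 / 2 ^ k * x := by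
      have h6 : Real.sqrt x * 2 ^ k ≤ x := by
        calc Real.sqrt x * 2 ^ k ≤ Real.sqrt x * Real.sqrt x := by gcongr
          _ = x := Real.mul_self_sqrt (by linarith only [hx1])
      have h7 : Real.sqrt x ≤ x / 2 ^ k := by rwa [le_div_iff₀ h2k]
      calc ε / 16 * Real.sqrt x ≤ ε / 16 * (x / 2 ^ k) := by gcongr
        _ = ε / 16 / 2 ^ k * x := by ring
    have hh : ((1 : ℝ) / 2) ^ k = 1 / 2 ^ k := by rw [one_div_pow]
    refine stepN_of (δ := ε / 16 / 2 ^ k) (m := m) hxn (hN45 k) (by positivity) ?_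
      (hμm k) hM ?_ ?_ ?_ h4 h5
    · have h8 : ε / 16 / 2 ^ k ≤ ε / 16 := div_le_self (by positivity) (one_le_pow₀ (by norm_num))
      have := hμ2 k
      linarith only [h8, this, hεm, hm]
    · calc 2 * (d : ℝ) * (3 * x) ^ d = 2 * d * 3 ^ d * x ^ d := by rw [mul_pow]; ring
        _ ≤ Real.exp (ε / 16 * Real.sqrt x) := hX1 x ((a1.trans hLr).trans hxL)
        _ ≤ Real.exp (ε / 16 / 2 ^ k * x) := Real.exp_le_exp.2 hδx
    · push_cast
      calc 8 * (d : ℝ) ^ 2 * (33 * (2 ^ k * N0) * x) ^ d * (3 * x) ^ d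
          ≤ 8 * (d : ℝ) ^ 2 * (33 * (x * N0) * x) ^ d * (3 * x) ^ d := by gcongr
        _ = 8 * (d : ℝ) ^ 2 * (33 * N0) ^ d * 3 ^ d * x ^ (3 * d) := by
            have h9 : 33 * (x * N0) * x = (33 * N0) * x ^ 2 := by ring
            rw [h9, mul_pow (33 * (N0 : ℝ)), mul_pow (3 : ℝ), ← pow_mul,
              show 3 * d = 2 * d + d by ring, pow_add]
            ring
        _ ≤ Real.exp (3 * m / 8 * x) := hX2 x ((a2.trans hLr).trans hxL)
        _ ≤ Real.exp (3 * μ k * x / 4) := by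
            apply Real.exp_le_exp.2
            have := hμ2 k
            nlinarith only [this, hx1]
    · have h10 : μ k - μ (k + 1) = ε / 4 / 2 ^ k := by
        simp only [hμ]
        rw [pow_succ, hh]
        ring
      have h11 : m * (48 / ((2 ^ k * N0 : ℕ) : ℝ)) ≤ ε * 48 / 400 / 2 ^ k := by
        push_cast
        have h12 : 400 * m ≤ N0 * ε := by
          rwa [div_le_iff₀ hε] at hN0
        have h13 : m * (48 / (2 ^ k * (N0 : ℝ))) = (m / N0) * 48 / 2 ^ k := by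
          field_simp
        rw [h13]
        have h14 : m / (N0 : ℝ) ≤ ε / 400 := by
          rw [div_le_div_iff₀ (by linarith only [hN0r]) (by norm_num)]
          linarith only [h12]
        have h15 : (m / (N0 : ℝ)) * 48 ≤ ε * 48 / 400 := by linarith only [h14]
        exact div_le_div_of_nonneg_right h15 h2k.le
      have h16 : m * (1 / x) ≤ ε / 16 / 2 ^ k := by
        have h17 : (2 : ℝ) ^ k * L ≤ x :=
          (mul_le_mul_of_nonneg_right (pow_le_pow_left₀ (by norm_num) (by norm_num) k)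
            (by linarith only [hL1r])).trans hx8
        rw [mul_one_div, div_le_div_iff₀ (by linarith only [hx1]) h2k]
        have h18 : m * 2 ^ k ≤ ε / 16 * L * 2 ^ k := by
          apply mul_le_mul_of_nonneg_right _ h2k.le
          linarith only [hLb]
        have h19 : ε / 16 * (2 ^ k * L) ≤ ε / 16 * x := by gcongr
        linarith only [h18, h19]
      have h20 : ε / 16 / 2 ^ k + (ε * 48 / 400 / 2 ^ k + ε / 16 / 2 ^ k) ≤ ε / 4 / 2 ^ k := by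
        have h21 : ε / 16 / 2 ^ k + (ε * 48 / 400 / 2 ^ k + ε / 16 / 2 ^ k) =
            (ε / 16 + (ε * 48 / 400 + ε / 16)) / 2 ^ k := by ring
        rw [h21]
        apply div_le_div_of_nonneg_right _ h2k.le
        linarith only [hε]
      rw [mul_add]
      rw [hxdef] at h16
      linarith only [h10, h11, h16, h20, hμ']
  refine ⟨scl N0 L, μ, fun k => Real.exp (-(4 ^ k * x0)), by simp [scl], ?_, ?_, ?_, ?_⟩
  · simp only [hμ, pow_zero]; ring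
  · simp only [pow_zero, one_mul]
  · intro k
    have hx1 : (1 : ℝ) ≤ scl N0 L k := hL1r.trans (fL k)
    have hx0' : (0 : ℝ) < scl N0 L k := by linarith only [hx1]
    refine ⟨by exact_mod_cast hx1, (Real.exp_pos _).le, ?_⟩
    refine key k (scl N0 L (k + 1)) (μ (k + 1)) (Real.exp (-(4 ^ (k + 1) * x0)))
      (by rw [scl_succ]) le_rfl ?_ ?_
    · have e1 : ((scl N0 L (k + 1) : ℕ) : ℝ) / (scl N0 L k : ℕ) = (2 ^ k * N0) ^ 3 := by
        rw [scl_succ]; push_cast; field_simp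
      rw [e1]
      exact smn_p1 hN0r (hN45 k) hx2 (hx0k k)
    · have hx4 := f4 k
      have hx2' := f2' k
      rw [scl_succ]
      push_cast
      exact smn_p2 hρ hm hx1 hx2' hx4 hLa (hμ2 k) (hX3 _ ((a3.trans hLr).trans (fL k)))
  · set K : ℝ := (L : ℝ) + 3 * (1 + N0) with hK
    obtain ⟨k0, hk0⟩ := exists_nat_ge (max X5 (14 * A' * K))
    refine ⟨scl N0 L (k0 + 1), fun M hM => ?_⟩
    obtain ⟨k, hk, hM1, hM2⟩ := scl_find N0 L k0 M (by omega) hL1 hM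
    have hkr : (k0 : ℝ) ≤ k := by exact_mod_cast hk
    have hx1 : (1 : ℝ) ≤ scl N0 L k := hL1r.trans (fL k)
    have hx0' : (0 : ℝ) < scl N0 L k := by linarith only [hx1]
    have hM1r : (1 : ℝ) ≤ M :=
      (hL1r.trans (fL (k + 1))).trans (by exact_mod_cast hM1)
    have hM0 : (0 : ℝ) < M := by linarith only [hM1r]
    -- the upper bound for `M`
    have hMu : (M : ℝ) ≤ 8 * ((2 : ℝ) ^ k * N0) ^ 6 * scl N0 L k := by
      have e1 : (M : ℝ) ≤ scl N0 L (k + 2) := by exact_mod_cast hM2.le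
      refine e1.trans (le_of_eq ?_)
      rw [show k + 2 = (k + 1) + 1 by ring, scl_succ, scl_succ]
      push_cast
      rw [pow_succ]
      ring
    have hMx : (M : ℝ) ≤ 8 * (N0 : ℝ) ^ 6 * (scl N0 L k : ℝ) ^ 7 := by
      refine hMu.trans ?_
      have hx2' := f2' k
      set x : ℝ := (scl N0 L k : ℝ) with hxdef
      calc 8 * ((2 : ℝ) ^ k * N0) ^ 6 * x ≤ 8 * (x * N0) ^ 6 * x := by gcongr
        _ = 8 * (N0 : ℝ) ^ 6 * x ^ 7 := by ring
    have hMe : (M : ℝ) ≤ Real.exp (K * 3 ^ (k + 2)) := by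
      have e1 : (M : ℝ) ≤ scl N0 L (k + 2) := by exact_mod_cast hM2.le
      exact e1.trans (scl_exp N0 L (k + 2))
    have hA1 : ((M : ℝ) ^ A')⁻¹ ≤ (M : ℝ) ^ (-A) := by
      rw [← Real.rpow_natCast, ← Real.rpow_neg hM0.le]
      exact Real.rpow_le_rpow_of_exponent_le hM1r (by linarith only [hA'])
    have hX5' : X5 ≤ scl N0 L k := by
      have e1 : X5 ≤ k := ((le_max_left _ _).trans hk0).trans hkr
      have e2 : (k : ℝ) ≤ 2 ^ k := by
        have : k < 2 ^ k := Nat.lt_two_pow_self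
        exact_mod_cast this.le
      exact (e1.trans e2).trans (f2' k)
    refine ⟨k, key k M (m - ε) _ ?_ ?_ ?_ ?_⟩
    · rw [← scl_succ]; exact hM1
    · have : 0 ≤ ((1 : ℝ) / 2) ^ (k + 1) := by positivity
      simp only [hμ]
      nlinarith only [this, hε]
    · refine (smn_p3 (hN45 k) hx2 (hx0k k) hM0 hx0' hMu).trans ?_
      have hK0 : 0 ≤ K := by rw [hK]; positivity
      refine (smn_p4 hx2 hK0 hM0 hMe ((le_max_right _ _).trans hk0) hkr).trans ?_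
      linarith only [hA1]
    · exact (smn_p5 hρ hx1 hM0 hMx (hμ2 k) (hX5 _ hX5')).trans
        (mul_le_mul_of_nonneg_left hA1 (Real.exp_pos _).le)

end Pool.Agent.LE.H15
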